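import Pool.Agent.Lib_helper76.Isocompact

/-!
# A space `X` for which `C_p(X)` is isocompact but not a g-space
-/

set_option autoImplicit false

open Filter Topology

namespace Pool.Agent.Results.MP_ba0d78_gt.IsocompactNotG

/-- `A` is countably compact in `Z`: each infinite subset of `A` has an accumulation point in `Z`. -/
def CountablyCompactIn {Z : Type*} [TopologicalSpace Z] (A : Set Z) : Prop :=
  ∀ B ⊆ A, B.Infinite → ∃ z : Z, AccPt z (𝓟 B)

/-- `Z` is a g-space: the closure of every set which is countably compact in `Z` is compact. -/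
def GSpace (Z : Type*) [TopologicalSpace Z] : Prop :=
  ∀ A : Set Z, CountablyCompactIn A → IsCompact (closure A)

/-- `Z` is isocompact: each closed subspace of `Z` which is countably compact (as a space: each
infinite subset has an accumulation point in the subspace) is compact. -/
def Isocompact (Z : Type*) [TopologicalSpace Z] : Prop :=
  ∀ S : Set Z, IsClosed S → CountablyCompactIn (Set.univ : Set S) → CompactSpace S

/-- `C_p(X)`: the continuous real functions on `X`, as a subspace of the product `ℝ ^ X`. -/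
abbrev Cp (X : Type*) [TopologicalSpace X] : Type _ := {f : X → ℝ // Continuous f}

/-! ### Sequences and accumulation points -/

theorem cc_of_seq {Z : Type*} [TopologicalSpace Z] {A : Set Z}
    (h : ∀ u : ℕ → Z, (∀ n, u n ∈ A) → ∃ z, MapClusterPt z atTop u) : CountablyCompactIn A := by
  intro B hBA hB
  have : Infinite B := hB.to_subtype
  obtain ⟨z, hz⟩ := h (fun n => (Infinite.natEmbedding B n : Z)) fun n =>
    hBA (Infinite.natEmbedding B n).2
  refine ⟨z, accPt_iff_frequently.2 ?_⟩
  rw [frequently_iff]
  intro U hU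
  have h1 : ∃ᶠ n in atTop, (Infinite.natEmbedding B n : Z) ∈ U := hz.frequently hU
  have h2 : ∀ᶠ n : ℕ in atTop, (Infinite.natEmbedding B n : Z) ≠ z := by
    by_cases hex : ∃ m, (Infinite.natEmbedding B m : Z) = z
    · obtain ⟨m, hm⟩ := hex
      filter_upwards [eventually_gt_atTop m] with n hn hc
      have h3 : Infinite.natEmbedding B n = Infinite.natEmbedding B m :=
        Subtype.ext (hc.trans hm.symm)
      exact hn.ne' ((Infinite.natEmbedding B).injective h3)
    · exact Eventually.of_forall fun n hc => hex ⟨n, hc⟩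
  obtain ⟨n, hn1, hn2⟩ := (h1.and_eventually h2).exists
  exact ⟨_, hn1, hn2, (Infinite.natEmbedding B n).2⟩

theorem seq_of_cc {Z : Type*} [TopologicalSpace Z] [T1Space Z] {A : Set Z}
    (h : CountablyCompactIn A) (u : ℕ → Z) (hu : ∀ n, u n ∈ A) :
    ∃ z, MapClusterPt z atTop u := by
  by_cases hfin : (Set.range u).Finite
  · have : Finite (Set.range u) := hfin
    obtain ⟨⟨z, hz⟩, hinf⟩ := Finite.exists_infinite_fiber (Set.rangeFactorization u)
    refine ⟨z, mapClusterPt_iff_frequently.2 fun U hU => ?_⟩
    rw [Nat.frequently_atTop_iff_infinite]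
    have h1 : (Set.rangeFactorization u ⁻¹' {⟨z, hz⟩}).Infinite := Set.infinite_coe_iff.1 hinf
    refine h1.mono fun n hn => ?_
    have h2 : Set.rangeFactorization u n = ⟨z, hz⟩ := hn
    have h3 : u n = z := congrArg Subtype.val h2
    show u n ∈ U
    rw [h3]
    exact mem_of_mem_nhds hU
  · obtain ⟨z, hz⟩ := h (Set.range u) (by rintro _ ⟨n, rfl⟩; exact hu n) hfin
    refine ⟨z, mapClusterPt_iff_frequently.2 fun U hU => ?_⟩
    rw [frequently_atTop]
    intro N
    have hF : ((u '' Set.Iio N) \ {z}).Finite := ((Set.finite_Iio N).image u).subset Set.sdiff_subset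
    have hV : U ∩ ((u '' Set.Iio N) \ {z})ᶜ ∈ 𝓝 z :=
      inter_mem hU (hF.isClosed.isOpen_compl.mem_nhds fun hc => hc.2 rfl)
    obtain ⟨y, hy, hyz, n, rfl⟩ := (frequently_iff.1 (accPt_iff_frequently.1 hz)) hV
    refine ⟨n, ?_, hy.1⟩
    by_contra hn
    exact hy.2 ⟨⟨n, Set.mem_Iio.2 (not_le.1 hn), rfl⟩, hyz⟩

/-- **Isocompactness of `C_p(X)` does not imply the g-space property.** There is a Tychonoff space
`X`, all of whose points but one are isolated, such that `C_p(X)` is isocompact but not a
g-space. -/
theorem result : ∃ (X : Type) (_ : TopologicalSpace X) (p : X), T35Space X ∧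
    (∀ x : X, IsOpen {x} ↔ x ≠ p) ∧ Isocompact (Cp X) ∧ ¬ GSpace (Cp X) := by
  refine ⟨Pool.Agent.Lib_helper76.Isocompact.Xt, inferInstance,
    Pool.Agent.Lib_helper76.Isocompact.pt, inferInstance, ?_, ?_, ?_⟩
  · intro x
    rw [Pool.Agent.Lib_helper76.Isocompact.isOpen_iff]
    constructor
    · rintro h rfl
      exact Pool.Agent.Lib_helper76.Isocompact.not_small_of
        Pool.Agent.Lib_helper76.Isocompact.aleph_le_of_range_some (h rfl)
    · exact fun hx h => (hx (h : _ = x).symm).elim
  · intro S hS hcc
    rw [← isCompact_iff_compactSpace]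
    refine Pool.Agent.Lib_helper76.Isocompact.isocompact S hS fun u hu => ?_
    obtain ⟨z, hz⟩ := seq_of_cc hcc (fun n => (⟨u n, hu n⟩ : S)) fun n => Set.mem_univ _
    have hc : Continuous fun g : S => (g : Cp Pool.Agent.Lib_helper76.Isocompact.Xt) :=
      continuous_subtype_val
    exact ⟨z, z.2, hz.continuousAt_comp hc.continuousAt⟩
  · intro h
    exact Pool.Agent.Lib_helper76.Isocompact.A_not_compact
      (h _ (cc_of_seq Pool.Agent.Lib_helper76.Isocompact.A_cc))

end Pool.Agent.Results.MP_ba0d78_gt.IsocompactNotG
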